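import Pool.Agent.KS6_22.DB.B

set_option autoImplicit false

open Set Filter Topology

namespace Pool.Agent.Results.MP_16fe1e_an.JointGraphs

open Pool.Agent.KS6_22

/-- `f` has the intermediate value property on `I`. -/
def DarbouxOn (I : Set ℝ) (f : ℝ → ℝ) : Prop :=
  ∀ a ∈ I, ∀ b ∈ I, ∀ w ∈ uIcc (f a) (f b), ∃ t ∈ uIcc a b, f t = w

/-- `f` is on `I` the pointwise limit of functions which are continuous on `I`. -/
def BaireOneOn (I : Set ℝ) (f : ℝ → ℝ) : Prop :=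
  ∃ u : ℕ → ℝ → ℝ, (∀ m, ContinuousOn (u m) I) ∧ ∀ y ∈ I, Tendsto (fun m => u m y) atTop (𝓝 (f y))

/-- The compositions: `comp g 0 x = x`, `comp g (j + 1) x = g j (comp g j x)`. -/
def comp (g : ℕ → ℝ → ℝ) : ℕ → ℝ → ℝ
  | 0, x => x
  | j + 1, x => g j (comp g j x)

/-- `f` is a derivative on `[0,1]` (one-sided at the endpoints) and maps `[0,1]` into itself. -/
def IsDerivativeSelfMap (f : ℝ → ℝ) : Prop :=
  MapsTo f (Icc (0 : ℝ) 1) (Icc (0 : ℝ) 1) ∧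
    ∃ F : ℝ → ℝ, ∀ x ∈ Icc (0 : ℝ) 1, HasDerivWithinAt F (f x) (Icc (0 : ℝ) 1) x

/-- The retraction of the line onto a closed interval. -/
theorem retraction {I : Set ℝ} (h1 : I.Nonempty) (h2 : IsClosed I) (h3 : I.OrdConnected) :
    ∃ r : ℝ → ℝ, Continuous r ∧ (∀ x, r x ∈ I) ∧ ∀ x ∈ I, r x = x := by
  classical
  obtain ⟨up, u1, u2, u3⟩ : ∃ up : ℝ → ℝ, Continuous up ∧ (∀ x, ∃ b ∈ I, up x ≤ b) ∧
      ∀ x ∈ I, up x = x := by
    by_cases h : BddAbove I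
    · exact ⟨fun x => min x (sSup I), by fun_prop, fun x => ⟨_, h2.csSup_mem h1 h, min_le_right _ _⟩,
        fun x hx => min_eq_left (le_csSup h hx)⟩
    · refine ⟨id, continuous_id, fun x => ?_, fun _ _ => rfl⟩
      obtain ⟨b, hb, hb'⟩ := not_bddAbove_iff.1 h x
      exact ⟨b, hb, hb'.le⟩
  obtain ⟨dn, d1, d2, d3, d4⟩ : ∃ dn : ℝ → ℝ, Continuous dn ∧ (∀ x, ∃ a ∈ I, a ≤ dn x) ∧
      (∀ x ∈ I, dn x = x) ∧ ∀ x, ∀ b ∈ I, x ≤ b → dn x ≤ b := by
    by_cases h : BddBelow I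
    · exact ⟨fun x => max x (sInf I), by fun_prop, fun x => ⟨_, h2.csInf_mem h1 h, le_max_right _ _⟩,
        fun x hx => max_eq_left (csInf_le h hx), fun x b hb hx => max_le hx (csInf_le h hb)⟩
    · refine ⟨id, continuous_id, fun x => ?_, fun _ _ => rfl, fun x b _ h => h⟩
      obtain ⟨b, hb, hb'⟩ := not_bddBelow_iff.1 h x
      exact ⟨b, hb, hb'.le⟩
  refine ⟨fun x => dn (up x), d1.comp u1, fun x => ?_, fun x hx => ?_⟩
  · obtain ⟨a, ha, ha'⟩ := d2 (up x)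
    obtain ⟨b, hb, hb'⟩ := u2 x
    exact h3.out ha hb ⟨ha', d4 _ _ hb hb'⟩
  · simp only
    rw [u3 x hx, d3 x hx]

theorem general (I : ℕ → Set ℝ) (hI : ∀ j, (I j).Nonempty ∧ IsClosed (I j) ∧ (I j).OrdConnected)
    (g : ℕ → ℝ → ℝ)
    (hg : ∀ j, MapsTo (g j) (I j) (I (j + 1)) ∧ DarbouxOn (I j) (g j) ∧ BaireOneOn (I j) (g j))
    (J : Set ℝ) (hJ : J.OrdConnected) (hJI : J ⊆ I 0) :
    IsPreconnected ((fun (x : ℝ) (j : ℕ) => comp g j x) '' J) := by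
  choose r r1 r2 r3 using fun j => retraction (hI j).1 (hI j).2.1 (hI j).2.2
  have hmem : ∀ x ∈ I 0, ∀ j, comp g j x ∈ I j := by
    intro x hx j
    induction j with
    | zero => exact hx
    | succ j ih => exact (hg j).1 ih
  refine isPreconnected_of_forall_pair ?_
  rintro _ ⟨a, ha, rfl⟩ _ ⟨b, hb, rfl⟩
  have hab : uIcc a b ⊆ J := hJ.uIcc_subset ha hb
  refine ⟨(fun (x : ℝ) (j : ℕ) => comp g j x) '' uIcc a b, image_mono hab,
    mem_image_of_mem _ left_mem_uIcc, mem_image_of_mem _ right_mem_uIcc, ?_⟩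
  obtain ⟨c, c1, c2, c3⟩ := retraction (I := uIcc a b) ⟨a, left_mem_uIcc⟩ isClosed_Icc ordConnected_uIcc
  let G : ℕ → ℝ → ℝ := fun j => Nat.casesOn j c (fun i => g i ∘ r i)
  have G0 : G 0 = c := rfl
  have Gs : ∀ i, G (i + 1) = g i ∘ r i := fun i => rfl
  have hD : ∀ j, DB.Dar (G j) := by
    intro j
    cases j with
    | zero => exact fun x y w hw => intermediate_value_uIcc c1.continuousOn hw
    | succ i =>
      intro x y w hw
      obtain ⟨t, t1, t2⟩ := (hg i).2.1 (r i x) (r2 i x) (r i y) (r2 i y) w hw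
      obtain ⟨s, s1, s2⟩ := intermediate_value_uIcc (r1 i).continuousOn t1
      exact ⟨s, s1, by rw [Gs, Function.comp, s2, t2]⟩
  have hB : ∀ j, DB.B1 (G j) := by
    intro j
    cases j with
    | zero => exact ⟨fun _ => c, fun _ => c1, fun y => tendsto_const_nhds⟩
    | succ i =>
      obtain ⟨u, u1, u2⟩ := (hg i).2.2
      exact ⟨fun m => u m ∘ r i, fun m => (u1 m).comp_continuous (r1 i) (r2 i),
        fun y => u2 _ (r2 i y)⟩
  have hch : ∀ x j, DB.ch G (j + 1) x = comp g j (c x) := by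
    intro x j
    induction j with
    | zero => rfl
    | succ j ih =>
      have e : DB.ch G (j + 1 + 1) x = G (j + 1) (DB.ch G (j + 1) x) := rfl
      rw [e, ih, Gs, Function.comp, r3 j _ (hmem _ (hJI (hab (c2 x))) j)]
      rfl
  have key := (DB.joint hD hB).image (fun (y : ℕ → ℝ) (j : ℕ) => y (j + 1)) (by
    refine Continuous.continuousOn ?_
    exact continuous_pi fun j => continuous_apply (j + 1))
  convert key using 1
  ext y
  constructor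
  · rintro ⟨x, hx, rfl⟩
    refine ⟨_, ⟨x, rfl⟩, funext fun j => ?_⟩
    simp only [hch, c3 x hx]
  · rintro ⟨_, ⟨x, rfl⟩, rfl⟩
    exact ⟨c x, c2 x, funext fun j => (hch x j).symm⟩

theorem graphs (I : ℕ → Set ℝ) (hI : ∀ j, (I j).Nonempty ∧ IsClosed (I j) ∧ (I j).OrdConnected)
    (g : ℕ → ℝ → ℝ)
    (hg : ∀ j, MapsTo (g j) (I j) (I (j + 1)) ∧ DarbouxOn (I j) (g j) ∧ BaireOneOn (I j) (g j))
    (J : Set ℝ) (hJ : J.OrdConnected) (hJI : J ⊆ I 0) (Y : Type*) [TopologicalSpace Y]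
    (Φ : (ℕ → ℝ) → Y) (hΦ : ContinuousOn Φ {y | ∀ j, y j ∈ I j}) :
    IsPreconnected ((fun x : ℝ => (x, Φ fun j => comp g j x)) '' J) := by
  have hmem : ∀ x ∈ I 0, ∀ j, comp g j x ∈ I j := by
    intro x hx j
    induction j with
    | zero => exact hx
    | succ j ih => exact (hg j).1 ih
  have h1 := (general I hI g hg J hJ hJI).image (fun y : ℕ → ℝ => (y 0, Φ y)) (by
    refine ((continuous_apply 0).continuousOn).prodMk (hΦ.mono ?_)
    rintro _ ⟨x, hx, rfl⟩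
    exact hmem x (hJI hx))
  rw [image_image] at h1
  exact h1

theorem derivative {f : ℝ → ℝ} (h : IsDerivativeSelfMap f) :
    DarbouxOn (Icc 0 1) f ∧ BaireOneOn (Icc 0 1) f := by
  obtain ⟨-, F, hF⟩ := h
  obtain ⟨h1, u, u1, u2⟩ := DB.der hF
  refine ⟨fun a ha b hb w hw => ?_, u, fun m => (u1 m).continuousOn, fun y hy => ?_⟩
  · obtain ⟨t, t1, t2⟩ := h1 a b w (by
      simpa only [Function.comp, DB.cl_eq ha, DB.cl_eq hb] using hw)
    refine ⟨t, t1, ?_⟩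
    rwa [Function.comp, DB.cl_eq (ordConnected_Icc.uIcc_subset ha hb t1)] at t2
  · have := u2 y
    rwa [Function.comp, DB.cl_eq hy] at this

/-- **Main theorem.** (1) Let `I₀, I₁, …` be closed intervals (bounded or not) and let `g_j : I_j → I_{j+1}` be
Darboux functions of the first Baire class. For every interval `J ⊆ I₀` the joint graph
`{(x, g₀ x, g₁ (g₀ x), g₂ (g₁ (g₀ x)), …) : x ∈ J}` is a connected subset of `ℝ^ℕ`, and for every function `Φ`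
which is continuous on `∏ I_j` the function `x ↦ Φ (x, g₀ x, g₁ (g₀ x), …)` has a connected graph over `J`.
(2) In particular for derivatives `g_j : [0,1] → [0,1]`: all this holds, and the graph of each composition
`g_{n-1} ∘ ⋯ ∘ g₀` over each interval `J ⊆ [0,1]` is connected. -/
theorem result :
    (∀ (I : ℕ → Set ℝ), (∀ j, (I j).Nonempty ∧ IsClosed (I j) ∧ (I j).OrdConnected) →
      ∀ g : ℕ → ℝ → ℝ,
      (∀ j, MapsTo (g j) (I j) (I (j + 1)) ∧ DarbouxOn (I j) (g j) ∧ BaireOneOn (I j) (g j)) →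
      ∀ J : Set ℝ, J.OrdConnected → J.Nonempty → J ⊆ I 0 →
        IsConnected ((fun (x : ℝ) (j : ℕ) => comp g j x) '' J) ∧
        ∀ (Y : Type) [TopologicalSpace Y] (Φ : (ℕ → ℝ) → Y), ContinuousOn Φ {y | ∀ j, y j ∈ I j} →
          IsConnected ((fun x : ℝ => (x, Φ fun j => comp g j x)) '' J)) ∧
    (∀ g : ℕ → ℝ → ℝ, (∀ j, IsDerivativeSelfMap (g j)) →
      ∀ J : Set ℝ, J.OrdConnected → J.Nonempty → J ⊆ Icc 0 1 →
        IsConnected ((fun (x : ℝ) (j : ℕ) => comp g j x) '' J) ∧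
        (∀ n : ℕ, IsConnected ((fun x : ℝ => (x, comp g n x)) '' J)) ∧
        ∀ (Y : Type) [TopologicalSpace Y] (Φ : (ℕ → ℝ) → Y),
          ContinuousOn Φ {y | ∀ j, y j ∈ Icc (0 : ℝ) 1} →
          IsConnected ((fun x : ℝ => (x, Φ fun j => comp g j x)) '' J)) := by
  refine ⟨fun I hI g hg J hJ hJn hJI => ⟨⟨hJn.image _, general I hI g hg J hJ hJI⟩,
    fun Y _ Φ hΦ => ⟨hJn.image _, graphs I hI g hg J hJ hJI Y Φ hΦ⟩⟩, fun g hg J hJ hJn hJI => ?_⟩
  have hI : ∀ j : ℕ, ((fun _ => Icc (0 : ℝ) 1 : ℕ → Set ℝ) j).Nonempty ∧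
      IsClosed ((fun _ => Icc (0 : ℝ) 1 : ℕ → Set ℝ) j) ∧
      ((fun _ => Icc (0 : ℝ) 1 : ℕ → Set ℝ) j).OrdConnected :=
    fun _ => ⟨⟨0, by simp⟩, isClosed_Icc, ordConnected_Icc⟩
  have hg' : ∀ j : ℕ, MapsTo (g j) (Icc (0 : ℝ) 1) (Icc (0 : ℝ) 1) ∧ DarbouxOn (Icc (0 : ℝ) 1) (g j) ∧
      BaireOneOn (Icc (0 : ℝ) 1) (g j) := fun j => ⟨(hg j).1, derivative (hg j)⟩
  exact ⟨⟨hJn.image _, general _ hI g hg' J hJ hJI⟩,
    fun n => ⟨hJn.image _, graphs _ hI g hg' J hJ hJI ℝ (fun y => y n) (continuous_apply n).continuousOn⟩,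
    fun Y _ Φ hΦ => ⟨hJn.image _, graphs _ hI g hg' J hJ hJI Y Φ hΦ⟩⟩

end Pool.Agent.Results.MP_16fe1e_an.JointGraphs
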